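import Pool.Agent.Y272.TY.Stm2
import Pool.Agent.W677.MarB
import Pool.Agent.H712R2.Par
import Pool.Agent.Helper240.ZFM.ConvA

set_option autoImplicit false

/-!
# Upper half of the law of the iterated logarithm for the derivative of the exterior map, part 1
-/

open Complex Filter Topology Metric Set MeasureTheory

namespace Pool.Agent.Y430.TY

open Pool.Agent.H712R2 Pool.Agent.H713R2 Pool.Agent.W677.Mar Pool.Agent.Y272.TY

theorem exists_sg {d : ℕ} {β : ℂ → ℂ} (hβ : IsBeta d β) : ∃ H, Sg β H := by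
  have hinj : InjOn (fun z => β z / z) (ball 0 1 \ {0}) := by
    rintro z ⟨hz, hz0⟩ w ⟨hw, hw0⟩ h
    have hz0' : z ≠ 0 := hz0
    have hw0' : w ≠ 0 := hw0
    refine hβ.inj z hz w hw hz0' hw0' ?_
    have h' : β z / z = β w / w := h
    rw [div_eq_inv_mul, div_eq_inv_mul] at h'
    exact h'
  have hG : IsG0 β := ⟨hβ.diff, hβ.zero, hinj⟩
  have hopen : IsOpen (ball (0:ℂ) 1 \ {0}) := isOpen_ball.sdiff isClosed_singleton
  have hgd : DifferentiableOn ℂ (fun w => β w - w * deriv β w) (ball 0 1) :=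
    hβ.diff.sub (differentiableOn_id.mul (hβ.diff.deriv isOpen_ball))
  have hne : ∀ w ∈ ball (0:ℂ) 1, β w - w * deriv β w ≠ 0 := by
    intro w hw
    by_cases hw0 : w = 0
    · rw [hw0, zero_mul, sub_zero, hβ.zero]; exact one_ne_zero
    · have hd1 : DifferentiableOn ℂ (fun z => β z / z) (ball (0:ℂ) 1 \ {0}) :=
        (hβ.diff.mono sdiff_subset).div differentiableOn_id (fun z hz => hz.2)
      have h1 := Pool.Agent.Helper405.Conv.deriv_ne_zero_of_injOn hopen hd1 hinj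
        (z := w) ⟨hw, hw0⟩
      have h2 : HasDerivAt (fun z => β z / z) ((deriv β w * w - β w * 1) / w ^ 2) w :=
        ((hβ.diff.differentiableAt (isOpen_ball.mem_nhds hw)).hasDerivAt).div
          (hasDerivAt_id w) hw0
      rw [h2.deriv] at h1
      intro h3
      apply h1
      have : deriv β w * w - β w * 1 = 0 := by linear_combination -h3
      rw [this, zero_div]
  obtain ⟨ℓ, h1, h2, h3⟩ := Pool.Agent.H712R2.M.exists_log_ball one_pos hgd hne 0
    (by simp [hβ.zero])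
  exact ⟨ℓ, hG, h1, h2, h3⟩

theorem log_deriv {β H : ℂ → ℂ} (S : Sg β H) {w : ℂ} (hw : w ∈ ball (0:ℂ) 1) (hw0 : w ≠ 0) :
    Real.log ‖deriv (cc β) w‖ = (H w).re - 2 * Real.log ‖w‖ := by
  have h1 : HasDerivAt (cc β) (-(w^2)⁻¹ * β w + w⁻¹ * deriv β w) w :=
    (hasDerivAt_inv hw0).mul ((S.G.diff.differentiableAt (isOpen_ball.mem_nhds hw)).hasDerivAt)
  have h2 : -(w^2)⁻¹ * β w + w⁻¹ * deriv β w = -(w^2)⁻¹ * Complex.exp (H w) := by
    rw [S.eq w hw]; field_simp; ring
  have hwn : ‖w‖ ≠ 0 := norm_ne_zero_iff.2 hw0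
  rw [h1.deriv, h2, norm_mul, norm_neg, norm_inv, norm_pow, Complex.norm_exp,
    Real.log_mul (by positivity) (by positivity), Real.log_inv, Real.log_pow, Real.log_exp]
  push_cast; ring

theorem near {H : ℂ → ℂ} (hH : DifferentiableOn ℂ H (ball 0 1))
    (hB : ∀ w ∈ ball (0 : ℂ) 1, ‖deriv H w‖ * (1 - ‖w‖) ≤ 6) {ρ r θ : ℝ} (h0 : 0 ≤ ρ)
    (h1 : ρ ≤ r) (h2 : r < 1) :
    ‖H (pt ρ θ) - H (pt r θ)‖ ≤ 6 * ((1 - ρ) / (1 - r)) := by
  have hr0 : 0 ≤ r := h0.trans h1
  have hr1 : 0 < 1 - r := by linarith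
  have hsub : closedBall (0:ℂ) r ⊆ ball 0 1 := closedBall_subset_ball h2
  have hb : ∀ x ∈ closedBall (0:ℂ) r, ‖deriv H x‖ ≤ 6 / (1 - r) := by
    intro x hx
    have hx' : ‖x‖ ≤ r := mem_closedBall_zero_iff.1 hx
    rw [le_div_iff₀ hr1]
    refine le_trans ?_ (hB x (hsub hx))
    gcongr
  have h3 := (convex_closedBall (0:ℂ) r).norm_image_sub_le_of_norm_deriv_le (f := H)
    (fun x hx => hH.differentiableAt (isOpen_ball.mem_nhds (hsub hx))) hb
    (x := pt r θ) (y := pt ρ θ) (mem_closedBall_zero_iff.2 (norm_pt r θ hr0).le)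
    (mem_closedBall_zero_iff.2 ((norm_pt ρ θ h0).le.trans h1))
  refine h3.trans ?_
  rw [norm_pt_sub, abs_of_nonpos (by linarith), div_mul_eq_mul_div, mul_div_assoc]
  gcongr
  linarith

/-- an elementary form of Jensen's inequality for `exp (c y² / L)` -/
theorem mean_ge {f : ℝ → ℂ} (hf : Continuous f) {a h c L lm : ℝ} (hh : 0 < h) (hc : 0 ≤ c)
    (hL : 0 < L) (hlam : 0 ≤ lm)
    (hm : lm ≤ ‖(h : ℂ)⁻¹ * ∫ t in a..(a + h), f t‖) :
    Real.exp (c * lm ^ 2 / L) ≤ h⁻¹ * ∫ t in a..(a + h), Real.exp (c * ‖f t‖ ^ 2 / L) := by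
  have hm1 : lm * h ≤ ∫ t in a..(a + h), ‖f t‖ := by
    have h1 : ‖(h : ℂ)⁻¹ * ∫ t in a..(a + h), f t‖ = h⁻¹ * ‖∫ t in a..(a + h), f t‖ := by
      rw [norm_mul, norm_inv, Complex.norm_real, Real.norm_of_nonneg hh.le]
    rw [h1, inv_mul_eq_div, le_div_iff₀ hh] at hm
    exact hm.trans (intervalIntegral.norm_integral_le_integral_norm (by linarith))
  have hpt : ∀ y : ℝ, Real.exp (c * lm ^ 2 / L) * (1 + 2 * c * lm / L * (y - lm)) ≤
      Real.exp (c * y ^ 2 / L) := by
    intro y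
    have h1 : c * y ^ 2 / L = c * lm ^ 2 / L + c * (y ^ 2 - lm ^ 2) / L := by ring
    rw [h1, Real.exp_add]
    refine mul_le_mul_of_nonneg_left ?_ (Real.exp_pos _).le
    have h2 := Real.add_one_le_exp (c * (y ^ 2 - lm ^ 2) / L)
    refine le_trans ?_ h2
    have h3 : 2 * c * lm / L * (y - lm) ≤ c * (y ^ 2 - lm ^ 2) / L := by
      rw [div_mul_eq_mul_div]
      refine div_le_div_of_nonneg_right ?_ hL.le
      nlinarith [mul_nonneg hc (sq_nonneg (y - lm))]
    linarith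
  have hcont1 : Continuous fun t => Real.exp (c * lm ^ 2 / L) *
      (1 + 2 * c * lm / L * (‖f t‖ - lm)) := by fun_prop
  have hcont2 : Continuous fun t => Real.exp (c * ‖f t‖ ^ 2 / L) := by fun_prop
  have h4 := intervalIntegral.integral_mono (a := a) (b := a + h) (by linarith)
    (μ := volume) (hcont1.intervalIntegrable _ _) (hcont2.intervalIntegrable _ _)
    (fun t => hpt ‖f t‖)
  have hn : IntervalIntegrable (fun t => ‖f t‖) volume a (a + h) :=
    hf.norm.intervalIntegrable _ _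
  have h5 : ∫ t in a..(a + h), Real.exp (c * lm ^ 2 / L) *
      (1 + 2 * c * lm / L * (‖f t‖ - lm)) =
      Real.exp (c * lm ^ 2 / L) * (h + 2 * c * lm / L * ((∫ t in a..(a + h), ‖f t‖) - lm * h)) := by
    have c1 : IntervalIntegrable (fun _ : ℝ => (1 : ℝ)) volume a (a + h) :=
      intervalIntegrable_const
    have c2 : IntervalIntegrable (fun _ : ℝ => lm) volume a (a + h) :=
      intervalIntegrable_const
    rw [intervalIntegral.integral_const_mul,
      intervalIntegral.integral_add c1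
        ((hn.sub c2).const_mul _), intervalIntegral.integral_const_mul,
      intervalIntegral.integral_sub hn c2, intervalIntegral.integral_const,
      intervalIntegral.integral_const, smul_eq_mul, smul_eq_mul, add_sub_cancel_left]
    ring
  rw [h5] at h4
  rw [inv_mul_eq_div, le_div_iff₀ hh]
  refine le_trans ?_ h4
  refine mul_le_mul_of_nonneg_left ?_ (Real.exp_pos _).le
  have : 0 ≤ 2 * c * lm / L * ((∫ t in a..(a + h), ‖f t‖) - lm * h) := by
    apply mul_nonneg (by positivity)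
    linarith
  linarith

/-- the radii -/
noncomputable def rj (j : ℕ) : ℝ := 1 - 1 / 2 ^ j

theorem rj_nonneg (j : ℕ) : 0 ≤ rj j := by
  unfold rj
  have h1 : (1 : ℝ) ≤ 2 ^ j := one_le_pow₀ (by norm_num)
  have : 1 / (2 : ℝ) ^ j ≤ 1 := by rw [div_le_one (by positivity)]; exact h1
  linarith

theorem rj_lt (j : ℕ) : rj j < 1 := by
  unfold rj
  have : 0 < 1 / (2 : ℝ) ^ j := by positivity
  linarith

theorem rj_mono {i j : ℕ} (h : i ≤ j) : rj i ≤ rj j := by
  unfold rj
  have : 1 / (2 : ℝ) ^ j ≤ 1 / 2 ^ i := by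
    apply one_div_le_one_div_of_le (by positivity)
    exact pow_le_pow_right₀ (by norm_num) h
  linarith

theorem rj_pos {j : ℕ} (h : 1 ≤ j) : 0 < rj j := by
  have h1 := rj_mono h
  have : rj 1 = 1 / 2 := by unfold rj; norm_num
  linarith

theorem lam_le (N : ℕ) : lam (rj N ^ 2) ≤ N * Real.log 2 := by
  unfold lam
  have h1 : 1 - rj N ^ 2 = (1 / 2 ^ N) * (1 + rj N) := by unfold rj; ring
  rw [h1]
  have h2 : (1 / (2:ℝ) ^ N) ≤ (1 / 2 ^ N) * (1 + rj N) := by
    have h3 := rj_nonneg N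
    have h4 : 0 < 1 / (2 : ℝ) ^ N := by positivity
    nlinarith
  have h3 := Real.log_le_log (by positivity) h2
  have h4 : Real.log (1 / (2:ℝ) ^ N) = -(N * Real.log 2) := by
    rw [one_div, Real.log_inv, Real.log_pow]
  linarith

/-- the thresholds -/
noncomputable def lm (k : ℕ) : ℝ := √(160 * 2 ^ k * Real.log 2 * Real.log k)

theorem lm_nonneg (k : ℕ) : 0 ≤ lm k := Real.sqrt_nonneg _

theorem lm_sq {k : ℕ} (hk : 1 ≤ k) : lm k ^ 2 = 160 * 2 ^ k * Real.log 2 * Real.log k := by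
  unfold lm
  rw [Real.sq_sqrt]
  have h1 : 0 ≤ Real.log k := Real.log_nonneg (by exact_mod_cast hk)
  have h2 : 0 ≤ Real.log 2 := Real.log_nonneg (by norm_num)
  positivity

end Pool.Agent.Y430.TY
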